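import Pool.Agent.Helper54.S4.Stmts

/-!
Module `LT1`: forced orientations in a half gate of type one.
-/

namespace Pool.Agent.Helper54.S4

open Finset Pool.Agent.Helper54.SP

theorem lt1_tr {A B R : ℝ} (h : 0 < A * B) (h' : 0 < A * R) : 0 < B * R := by
  have h2 := mul_pos h h'
  have h1 : (A * B) * (A * R) = A ^ 2 * (B * R) := by ring
  rw [h1] at h2
  by_contra hc
  have h3 := mul_nonneg (sq_nonneg A) (neg_nonneg.mpr (not_lt.mp hc))
  have h4 : A ^ 2 * -(B * R) = -(A ^ 2 * (B * R)) := by ring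
  rw [h4] at h3
  linarith

theorem lt1_perm (P : ℕ → ℕ) (n : ℕ) (l l' : List ℕ) (h : l.Perm l') :
    (l.map P ++ [n]).Perm (l'.map P ++ [n]) := (h.map P).append_right [n]

/-- `ST_OSP` is an additional hypothesis -/
theorem st_LT1 (h1 : ST_VC4) (h2 : ST_AD4) (h3 : ST_FLIP) (h4 : ST_CV) (h5 : ST_PT4)
    (h6 : Pool.Agent.Helper54.SP.ST_BR) (h7 : Pool.Agent.Helper54.SP.ST_OSP) : ST_LT4 true := by
  intro Γ nw X hW hF j hj ht
  have hG : 0 < Γ.length := by omega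
  have hP : ∀ i, i < 6 → pt j i < N4 Γ := by
    intro i hi
    unfold pt N4
    omega
  have hP3 : ∀ i, 3 ≤ pt j i := by
    intro i
    unfold pt
    omega
  have hcv : ∀ i, i < 6 → Cov4 (N4 Γ) X (pt j i) (N4 Γ) ∧ Cov4 (N4 Γ) X (pt j i) (N4 Γ + 1) :=
    fun i hi => h4 Γ nw X hW hF (pt j i) (hP3 i) (hP i hi)
  have htf : ∀ T ∈ TT true, OS 5 X (N4 Γ + 2) [pt j T.1, pt j T.2.1, pt j T.2.2, N4 Γ + 1] := by
    intro T hT
    exact hF.tf j hj T (by rw [ht]; exact hT)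
  have hff : ∀ T ∈ FL true, OS 5 X (N4 Γ + 2) [pt j T.1, pt j T.2.1, pt j T.2.2.1, pt j T.2.2.2] := by
    intro T hT
    exact hF.ff j hj T (by rw [ht]; exact hT)
  have hnd : ∀ l : List ℕ, l.Nodup → (l.map (pt j)).Nodup := by
    intro l hl
    refine hl.map ?_
    intro a b hab
    unfold pt at hab
    omega
  -- two triangles with a common edge
  have ad : ∀ (o p q r : ℕ) (S T : ℕ × ℕ × ℕ), S ∈ TT true → T ∈ TT true →
      [S.1, S.2.1, S.2.2].Perm [o, p, q] → [T.1, T.2.1, T.2.2].Perm [o, q, r] →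
      o < 6 → p < 6 → q < 6 → r < 6 → [o, p, q, r].Nodup →
      0 < br (N4 Γ) 2 X (pt j o) (pt j p) (pt j q) * br (N4 Γ) 2 X (pt j o) (pt j q) (pt j r) := by
    intro o p q r S T hS hT hSp hTp ho hp hq hr hn
    exact h2 (N4 Γ) X (pt j o) (pt j p) (pt j q) (pt j r) _ _ (hnd [o, p, q, r] hn) (hP o ho)
      (hP p hp) (hP q hq) (hP r hr) (lt1_perm (pt j) (N4 Γ + 1) _ _ hSp)
      (lt1_perm (pt j) (N4 Γ + 1) _ _ hTp) (htf S hS) (htf T hT)
  -- flips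
  have fl : ∀ (p q r s : ℕ) (T : ℕ × ℕ × ℕ × ℕ), T ∈ FL true →
      [T.1, T.2.1, T.2.2.1, T.2.2.2].Perm [p, q, r, s] → p < 6 → q < 6 → r < 6 → s < 6 →
      [p, q, r, s].Nodup →
      0 < br (N4 Γ) 2 X (pt j p) (pt j q) (pt j r) * br (N4 Γ) 2 X 0 2 3 →
      0 < br (N4 Γ) 2 X (pt j p) (pt j r) (pt j s) * br (N4 Γ) 2 X 0 2 3 →
      0 < br (N4 Γ) 2 X (pt j q) (pt j r) (pt j s) * br (N4 Γ) 2 X 0 2 3 ∧
      0 < br (N4 Γ) 2 X (pt j p) (pt j q) (pt j s) * br (N4 Γ) 2 X 0 2 3 := by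
    intro p q r s T hT hTp hp hq hr hs hn ha hb
    have hos : OS 5 X (N4 Γ + 2) [pt j p, pt j q, pt j r, pt j s] :=
      h7 5 X (N4 Γ + 2) _ _ (hTp.map (pt j)) (by simp) (hff T hT)
    have hab : 0 < br (N4 Γ) 2 X (pt j p) (pt j q) (pt j r) *
        br (N4 Γ) 2 X (pt j p) (pt j r) (pt j s) := by
      have e1 : 0 < br (N4 Γ) 2 X 0 2 3 * br (N4 Γ) 2 X (pt j p) (pt j q) (pt j r) := by
        rw [mul_comm]; exact ha
      have e2 : 0 < br (N4 Γ) 2 X 0 2 3 * br (N4 Γ) 2 X (pt j p) (pt j r) (pt j s) := by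
        rw [mul_comm]; exact hb
      exact lt1_tr e1 e2
    obtain ⟨g1, g2⟩ := h3 (N4 Γ) X (pt j p) (pt j q) (pt j r) (pt j s) (hnd [p, q, r, s] hn)
      (hP p hp) (hP q hq) (hP r hr) (hP s hs) hos (hcv p hp).1 (hcv p hp).2 (hcv r hr).1
      (hcv r hr).2 hab
    exact ⟨lt1_tr g1 ha, lt1_tr g2 ha⟩
  -- permutations of the bracket
  have hB := h6 (N4 Γ) 2 X
  have q0 : la (pt j 0) = 0 := (h5.1 j 0 (by omega)).2.1
  have q1 : ty (pt j 0) = true := by rw [(h5.1 j 0 (by omega)).2.2.1, ht]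
  have hvl : VL Γ (pt j 0) (pt j 4) := by
    refine ⟨by have := hP3 0; omega, hP 4 (by omega), Or.inr (Or.inr (Or.inl ⟨hP3 0, q0, q1, ?_⟩))⟩
    unfold pt
    omega
  have v0 := h1 Γ nw X hG hF (pt j 0) (pt j 4) hvl
  have vfa := hF.vf (pt j 0) (pt j 4) hvl
  have k0 := h2 (N4 Γ) X (pt j 0) 0 (pt j 4) (pt j 5) [0, pt j 0, pt j 4, N4 Γ + 1]
    [pt j 0, pt j 4, pt j 5, N4 Γ + 1] (by simp [pt]) (hP 0 (by omega))
    (by have := hP 0 (by omega); omega) (hP 4 (by omega)) (hP 5 (by omega))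
    (List.Perm.swap _ _ _) (List.Perm.refl _) vfa (htf (0, 4, 5) (by simp [TT]))
  rw [(hB 0 (pt j 0) (pt j 4)).1] at k0
  have t045 : 0 < -br (N4 Γ) 2 X (pt j 0) (pt j 4) (pt j 5) * br (N4 Γ) 2 X 0 2 3 := by
    have k0' : 0 < br (N4 Γ) 2 X 0 (pt j 0) (pt j 4) *
      -br (N4 Γ) 2 X (pt j 0) (pt j 4) (pt j 5) := by linarith
    exact lt1_tr k0' v0
  have t054 : 0 < br (N4 Γ) 2 X (pt j 0) (pt j 5) (pt j 4) * br (N4 Γ) 2 X 0 2 3 := by
    rw [(hB (pt j 0) (pt j 4) (pt j 5)).2.1]; exact t045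
  have t035 : 0 < br (N4 Γ) 2 X (pt j 0) (pt j 3) (pt j 5) * br (N4 Γ) 2 X 0 2 3 := by
    have e := ad 0 4 5 3 (0, 4, 5) (0, 3, 5) (by simp [TT]) (by simp [TT]) (by decide) (by decide)
      (by omega) (by omega) (by omega) (by omega) (by decide)
    rw [(hB (pt j 0) (pt j 3) (pt j 5)).2.1] at e
    exact lt1_tr (by linarith : 0 < -br (N4 Γ) 2 X (pt j 0) (pt j 4) (pt j 5) *
      br (N4 Γ) 2 X (pt j 0) (pt j 3) (pt j 5)) t045
  have t023 : 0 < br (N4 Γ) 2 X (pt j 0) (pt j 2) (pt j 3) * br (N4 Γ) 2 X 0 2 3 := by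
    have e := ad 0 5 3 2 (0, 3, 5) (0, 2, 3) (by simp [TT]) (by simp [TT]) (by decide) (by decide)
      (by omega) (by omega) (by omega) (by omega) (by decide)
    rw [(hB (pt j 0) (pt j 3) (pt j 5)).2.1, (hB (pt j 0) (pt j 2) (pt j 3)).2.1] at e
    exact lt1_tr (by linarith : 0 < br (N4 Γ) 2 X (pt j 0) (pt j 3) (pt j 5) *
      br (N4 Γ) 2 X (pt j 0) (pt j 2) (pt j 3)) t035
  have t012 : 0 < br (N4 Γ) 2 X (pt j 0) (pt j 1) (pt j 2) * br (N4 Γ) 2 X 0 2 3 := by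
    have e := ad 0 3 2 1 (0, 2, 3) (0, 1, 2) (by simp [TT]) (by simp [TT]) (by decide) (by decide)
      (by omega) (by omega) (by omega) (by omega) (by decide)
    rw [(hB (pt j 0) (pt j 2) (pt j 3)).2.1, (hB (pt j 0) (pt j 1) (pt j 2)).2.1] at e
    exact lt1_tr (by linarith : 0 < br (N4 Γ) 2 X (pt j 0) (pt j 2) (pt j 3) *
      br (N4 Γ) 2 X (pt j 0) (pt j 1) (pt j 2)) t023
  have t235 : 0 < -br (N4 Γ) 2 X (pt j 2) (pt j 3) (pt j 5) * br (N4 Γ) 2 X 0 2 3 := by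
    have e := ad 3 0 5 2 (0, 3, 5) (2, 3, 5) (by simp [TT]) (by simp [TT]) (by decide) (by decide)
      (by omega) (by omega) (by omega) (by omega) (by decide)
    rw [(hB (pt j 0) (pt j 3) (pt j 5)).1, (hB (pt j 2) (pt j 3) (pt j 5)).2.2.1] at e
    exact lt1_tr (by linarith : 0 < br (N4 Γ) 2 X (pt j 0) (pt j 3) (pt j 5) *
      -br (N4 Γ) 2 X (pt j 2) (pt j 3) (pt j 5)) t035
  obtain ⟨t123, t013⟩ := fl 0 1 2 3 (0, 1, 2, 3) (by simp [FL]) (by decide) (by omega) (by omega)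
    (by omega) (by omega) (by decide) t012 t023
  obtain ⟨t135, t015⟩ := fl 0 1 3 5 (0, 1, 3, 5) (by simp [FL]) (by decide) (by omega) (by omega)
    (by omega) (by omega) (by decide) t013 t035
  obtain ⟨t154, t014⟩ := fl 0 1 5 4 (0, 1, 4, 5) (by simp [FL]) (by decide) (by omega) (by omega)
    (by omega) (by omega) (by decide) t015 t054
  obtain ⟨t354, t134⟩ := fl 1 3 5 4 (1, 3, 4, 5) (by simp [FL]) (by decide) (by omega) (by omega)
    (by omega) (by omega) (by decide) t135 t154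
  have t325 : 0 < br (N4 Γ) 2 X (pt j 3) (pt j 2) (pt j 5) * br (N4 Γ) 2 X 0 2 3 := by
    rw [(hB (pt j 2) (pt j 3) (pt j 5)).1]; exact t235
  obtain ⟨t254, t324⟩ := fl 3 2 5 4 (2, 3, 4, 5) (by simp [FL]) (by decide) (by omega) (by omega)
    (by omega) (by omega) (by decide) t325 t354
  rw [(hB (pt j 1) (pt j 4) (pt j 5)).2.1] at t154
  rw [(hB (pt j 3) (pt j 4) (pt j 5)).2.1] at t354
  rw [(hB (pt j 2) (pt j 4) (pt j 5)).2.1] at t254
  rw [(hB (pt j 2) (pt j 3) (pt j 4)).1] at t324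
  intro T hT
  simp only [KT, if_true, List.mem_cons, List.not_mem_nil, or_false] at hT
  rcases hT with rfl | rfl | rfl | rfl | rfl | rfl | rfl | rfl | rfl | rfl | rfl | rfl | rfl |
    rfl | rfl <;> norm_num [tb4, sb] <;> linarith

end Pool.Agent.Helper54.S4
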