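import Pool.Agent.Helper54.S4.Stmts

/-!
Module `F1`: the facets at the horizontal direction are one-sided.
-/

namespace Pool.Agent.Helper54.S4

open Finset Pool.Agent.Helper54.SP

theorem f1_A (h1 : ST_AL4) (h3 : ST_LV4) (Γ : List Gt) (nw : ℕ) (hW : WF Γ nw) (a b : ℕ)
    (ha : a < N4 Γ) (hb : b < N4 Γ) (hab : a ≠ b) (ha1 : a ≠ 1) (hb1 : b ≠ 1) :
    ch4 Γ nw [1, a, b, N4 Γ] = decide (lv Γ nw b < lv Γ nw a) := by
  obtain ⟨hal, hinc, -⟩ := h1 (c4 Γ nw) (N4 Γ + 1)
  obtain ⟨l0, -, -, linj, -⟩ := h3 Γ nw hW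
  have h3N : 3 ≤ N4 Γ := by unfold N4; omega
  -- increasing lists
  have hi : ∀ a b, 2 ≤ a → a < b → b < N4 Γ →
      ch4 Γ nw [1, a, b, N4 Γ] = decide (lv Γ nw b < lv Γ nw a) := by
    intro a b ha hab hb
    have := hinc 1 a b (N4 Γ) (by omega) hab hb
    simp only [ch4]
    rw [this]
    simp [c4, s3]
  -- the vertical direction
  have hz : ∀ b, 2 ≤ b → b < N4 Γ → ch4 Γ nw [1, 0, b, N4 Γ] = true := by
    intro b hb hbN
    have h01 := hinc 0 1 b (N4 Γ) (by omega) (by omega) hbN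
    have hs := hal [] [b, N4 Γ] 0 1 (by simp) (by simp; omega) (by
      intro i hi
      simp at hi
      omega)
    simp only [List.nil_append] at hs
    simp only [ch4]
    rw [hs, h01]
    simp [c4, s3]
  have hsw : ∀ a b, a < N4 Γ → b < N4 Γ → a ≠ 1 → b ≠ 1 → a ≠ b →
      ch4 Γ nw [1, b, a, N4 Γ] = !ch4 Γ nw [1, a, b, N4 Γ] := by
    intro a b ha hb ha1 hb1 hab
    have hs := hal [1] [N4 Γ] a b (by simp) (by simp; omega) (by
      intro i hi
      simp at hi
      omega)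
    simpa [ch4] using hs
  have hne : lv Γ nw a ≠ lv Γ nw b := fun h => hab (linj a b ha1 hb1 ha hb h)
  by_cases ha0 : a = 0
  · subst ha0
    rw [hz b (by omega) hb]
    have := l0 b hb (by omega)
    simp [this]
  by_cases hb0 : b = 0
  · subst hb0
    rw [hsw 0 a (by omega) ha (by omega) ha1 (by omega), hz a (by omega) ha]
    have := l0 a ha ha0
    simp
    omega
  rcases Nat.lt_or_ge a b with h | h
  · exact hi a b (by omega) h hb
  · rw [hsw b a hb ha hb1 ha1 (Ne.symm hab), hi b a (by omega) (by omega) ha]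
    by_cases hlt : lv Γ nw a < lv Γ nw b
    · have h' : ¬ lv Γ nw b < lv Γ nw a := by omega
      simp [hlt, h']
    · have h' : lv Γ nw b < lv Γ nw a := by omega
      simp [hlt, h']

theorem st_F1 (h1 : ST_AL4) (h2 : ST_EV5) (h3 : ST_LV4) (h4 : ST_RB4) : ST_F1 := by
  intro Γ nw hW p q hN
  obtain ⟨hp, hq, hp1, hq1, hpq, hbet⟩ := hN
  obtain ⟨rinj, rmax, rN, r1, rp, rmid, -⟩ := h4 Γ nw hW
  obtain ⟨-, -, -, linj, -⟩ := h3 Γ nw hW
  have hpq' : p ≠ q := fun h => by rw [h] at hpq; omega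
  have key : ∀ x, x < N4 Γ + 2 → x ∉ [1, p, q, N4 Γ] → ch5 Γ nw ([1, p, q, N4 Γ] ++ [x]) = false := by
    intro x hx hxn
    simp only [List.mem_cons, List.not_mem_nil, or_false, not_or] at hxn
    obtain ⟨hx1, hxp, hxq, hxN⟩ := hxn
    obtain ⟨-, e2, e3, -, e5⟩ := h2 Γ nw 1 p q (N4 Γ) x
    have hrp := rp p hp hp1
    have hrq := rp q hq hq1
    have hA : ch4 Γ nw [1, p, q, N4 Γ] = false := by
      rw [f1_A h1 h3 Γ nw hW p q hp hq hpq' hp1 hq1]
      simp
      omega
    have hsw : ∀ a, a < N4 Γ → a ≠ 1 → a ≠ x → x < N4 Γ →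
        ch4 Γ nw [1, a, N4 Γ, x] = !ch4 Γ nw [1, a, x, N4 Γ] := by
      intro a ha ha1 hax hxN'
      have hs := (h1 (c4 Γ nw) (N4 Γ + 1)).1 [1, a] [] x (N4 Γ) (by simp) (by simp; omega) (by
        intro i hi
        simp at hi
        omega)
      simpa [ch4] using hs
    show ch5 Γ nw [1, p, q, N4 Γ, x] = false
    rcases Nat.lt_or_ge x (N4 Γ) with hxl | hxg
    · have hrx := rp x hxl hx1
      have hlp : lv Γ nw x ≠ lv Γ nw p := fun h => hxp (linj x p hx1 hp1 hxl hp h)
      have hlq : lv Γ nw x ≠ lv Γ nw q := fun h => hxq (linj x q hx1 hq1 hxl hq h)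
      have hb := hbet x hxl hx1
      have hr1 : rb Γ nw x ≠ rb Γ nw p := fun h => hxp (rinj x p (by omega) (by omega) h)
      have hr2 : rb Γ nw x ≠ rb Γ nw q := fun h => hxq (rinj x q (by omega) (by omega) h)
      have hr3 : rb Γ nw p ≠ rb Γ nw q := fun h => hpq' (rinj p q (by omega) (by omega) h)
      by_cases hX : rb Γ nw p < rb Γ nw x ∧ rb Γ nw q < rb Γ nw x
      · rw [e5 (by omega) (by omega) (by omega) (by omega)]
        exact hA
      by_cases hQ : rb Γ nw p < rb Γ nw q ∧ rb Γ nw x < rb Γ nw q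
      · have hlt : lv Γ nw x < lv Γ nw p := by
          by_contra hc
          have h6 : lv Γ nw q < lv Γ nw x := by omega
          exact rmid p q x hp1 hq1 hx1 hp hq hxl hpq h6 hQ
        rw [e3 (by omega) (by omega) (by omega) (by omega), hsw p hp hp1 (Ne.symm hxp) hxl,
          f1_A h1 h3 Γ nw hW p x hp hxl (Ne.symm hxp) hp1 hx1]
        simp [hlt]
      · have hP : rb Γ nw x < rb Γ nw p ∧ rb Γ nw q < rb Γ nw p := by omega
        have hlt : lv Γ nw q < lv Γ nw x := by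
          by_contra hc
          have h6 : lv Γ nw x < lv Γ nw p := by omega
          exact rmid x p q hx1 hp1 hq1 hxl hp hq h6 hpq hP
        rw [e2 (by omega) (by omega) (by omega) (by omega), hsw q hq hq1 (Ne.symm hxq) hxl,
          f1_A h1 h3 Γ nw hW q x hq hxl (Ne.symm hxq) hq1 hx1]
        simp
        omega
    · have hxe : x = N4 Γ + 1 := by omega
      subst hxe
      have h1' := rmax 1 (by unfold N4; omega)
      have h2' := rmax p (by omega)
      have h3' := rmax q (by omega)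
      have h4' := rmax (N4 Γ) (by omega)
      rw [e5 h1' h2' h3' h4']
      exact hA
  intro x y hx hy hxf hyf
  rw [key x hx hxf, key y hy hyf]

end Pool.Agent.Helper54.S4
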